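import Pool.Agent.H86.BlF

namespace Pool.Agent.Results.MP_be51b2_an.NotFree
open Pool.Agent.H86.Bl

/-- `T` is a lattice homomorphism extending `f` with norm `sup ‖f b‖`. -/
def IsExtn {B F X : Type} [BL F] [BL X] (δ : B → F) (f : B → X) (T : F →L[ℝ] X) : Prop :=
  LatHom T ∧ (∀ b, T (δ b) = f b) ∧ ‖T‖ = ⨆ b, ‖f b‖

/-- `(F, δ)` is the free Banach lattice over the nonempty set `B`. -/
def IsFBL {B F : Type} [BL F] (δ : B → F) : Prop :=
  Nonempty B ∧ (∀ b, ‖δ b‖ = 1) ∧ ∀ (X : Type) [BL X] (f : B → X),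
    BddAbove (Set.range fun b => ‖f b‖) → ∃! T : F →L[ℝ] X, IsExtn δ f T

/-- `P` is isometrically lattice isomorphic to a free Banach lattice. -/
def IsFree (P : Type) [BL P] : Prop :=
  ∃ (B F : Type) (_ : BL F) (δ : B → F), IsFBL δ ∧ ∃ e : P ≃ₗᵢ[ℝ] F, ∀ p, e |p| = |e p|

theorem dense_of {B F : Type} [BL F] {δ : B → F} (h : IsFBL δ) : DenseRange (Tm.ev δ) := by
  obtain ⟨⟨b0⟩, h1, h2⟩ := h
  haveI : Nonempty B := ⟨b0⟩
  have n1 : ∀ T : F →L[ℝ] F, ‖T‖ ≤ 1 → T (δ b0) = δ b0 → ‖T‖ = ⨆ b, ‖δ b‖ := fun T a b => by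
    have := T.le_opNorm (δ b0)
    rw [b, h1, mul_one] at this
    simp only [h1, ciSup_const]
    exact le_antisymm a this
  obtain ⟨T, ⟨t1, t2, t3⟩, -⟩ := h2 (SubT (gen_sub δ)) (gg δ) ⟨1, by
    rintro _ ⟨b, rfl⟩; exact (h1 b).le⟩
  have t4 : ‖T‖ ≤ 1 := t3.trans_le (ciSup_le fun b => (h1 b).le)
  have t5 : ∀ b, (incl _).comp T (δ b) = δ b := fun b => by change incl _ (T _) = _; rw [t2]; rfl
  have := (h2 F δ ⟨1, by rintro _ ⟨b, rfl⟩; exact (h1 b).le⟩).unique (y₁ := (incl _).comp T)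
    (y₂ := ContinuousLinearMap.id ℝ F) ⟨(incl_hom _).comp' t1, t5, n1 _
      (ContinuousLinearMap.opNorm_le_bound _ zero_le_one fun p => (T.le_opNorm p).trans
        (mul_le_mul_of_nonneg_right t4 (norm_nonneg _))) (t5 b0)⟩
    ⟨fun _ => rfl, fun _ => rfl, n1 _ ContinuousLinearMap.norm_id_le rfl⟩
  intro p
  have h3 : incl _ (T p) = p := congrArg (fun S : F →L[ℝ] F => S p) this
  rw [← h3]
  exact (T p).2

theorem not_free {A P : Type} [BL P] {g : A → P} (h : PosFree g) : ¬ IsFree P := by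
  rintro ⟨B, F, _, δ, hF, e, he⟩
  have hd := dense_of hF
  obtain ⟨⟨b0⟩, h1, h2⟩ := hF
  haveI : Nonempty B := ⟨b0⟩
  let E : P →L[ℝ] F := e.toContinuousLinearEquiv
  let E' : F →L[ℝ] P := e.symm.toContinuousLinearEquiv
  have hE : LatHom E := he
  have hE' : LatHom E' := fun p => e.injective (by
    change e (e.symm |p|) = e |e.symm p|
    rw [he, e.apply_symm_apply, e.apply_symm_apply])
  have nz : ∀ z : F →L[ℝ] ℝ, LatHom z → ∀ c, (∀ b, |z (δ b)| ≤ c) → ‖z‖ ≤ c := fun z hz c hc => by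
    obtain ⟨T, ⟨t1, t2, t3⟩, -⟩ := h2 ℝ (fun b => z (δ b)) ⟨c, by rintro _ ⟨b, rfl⟩; exact hc b⟩
    rw [← hom_ext hd t1 hz t2, t3]
    exact ciSup_le hc
  have key : ∀ s : ℝ, |s| = 1 → ∃ x : P →L[ℝ] ℝ, LatHom x ∧ x (E' (δ b0)) = s ∧
      ∀ a, x (g a) = 1 := fun s hs => by
    obtain ⟨T, ⟨t1, t2, t3⟩, -⟩ := h2 ℝ (fun _ => s) ⟨1, by rintro _ ⟨b, rfl⟩; exact hs.le⟩
    have t4 : ∀ b, T.comp E (E' (δ b)) = s := fun b => by
      change T (e (e.symm _)) = s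
      rw [e.apply_symm_apply, t2]
    rw [ciSup_const, Real.norm_eq_abs, hs] at t3
    have t5 : ∀ a, T.comp E (g a) ≤ 1 := fun a => by
      have := T.le_opNorm (e (g a))
      rw [t3, one_mul, e.norm_map] at this
      exact (le_abs_self _).trans (this.trans (h.nrm a))
    refine ⟨T.comp E, t1.comp' hE, t4 b0, fun a => le_antisymm (t5 a) ?_⟩
    obtain ⟨z, z1, z2⟩ := h.exev a
    have p0 := (t1.comp' hE).nonneg (h.pos a)
    have k1 := h.two (t1.comp' hE) z1 (c := T.comp E (g a) + 1) (by linarith) fun b => by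
      rw [z2]
      split_ifs with hb
      · rw [hb]
      · linarith [t5 b]
    have k2 := nz (z.comp E') (z1.comp' hE') (T.comp E (g a)) fun b => by
      have := k1 (E' (δ b))
      rw [t4, hs, show ‖E' (δ b)‖ = 1 from (e.symm.norm_map _).trans (h1 b)] at this
      change |z (E' (δ b))| ≤ _
      linarith
    have k3 := (z.comp E').le_opNorm (e (g a))
    rw [show z.comp E' (e (g a)) = z (g a) from congrArg z (e.symm_apply_apply _), z2, if_pos rfl,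
      e.norm_map, norm_one] at k3
    nlinarith [h.nrm a, norm_nonneg (g a), norm_nonneg (z.comp E')]
  obtain ⟨x, x1, x2, x3⟩ := key 1 abs_one
  obtain ⟨y, y1, y2, y3⟩ := key (-1) (by simp)
  rw [hom_ext h.dense x1 y1 fun a => (x3 a).trans (y3 a).symm, y2] at x2
  norm_num at x2

theorem result : ∃ (P : Type) (_ : BL P), Proj.{0} P ∧ ¬ HasTOU P ∧ ¬ IsFree P := by
  obtain ⟨P, _, g, h⟩ := exPosFree ℝ
  exact ⟨P, inferInstance, h.proj, h.not_tou, not_free h⟩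

end Pool.Agent.Results.MP_be51b2_an.NotFree
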